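import Mathlib
import Pool.Agent.H57.Cube

set_option autoImplicit false

open Cardinal

namespace Pool.Agent.Results.MP_04d4af_lc.Negative

universe u

/-- For every infinite cardinal `k` there is a 2-colouring of `k⁺ × k⁺ × k⁺` that is constant on
no product of three sets of cardinality `k`. -/
theorem result (k : Cardinal.{u}) (hk : ℵ₀ ≤ k) :
    ∃ c : (Order.succ k).ord.ToType × (Order.succ k).ord.ToType × (Order.succ k).ord.ToType → Bool,
      ∀ (H₁ H₂ H₃ : Set (Order.succ k).ord.ToType) (i : Bool),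
        Cardinal.mk H₁ = k → Cardinal.mk H₂ = k → Cardinal.mk H₃ = k →
        ¬ ∀ x ∈ H₁, ∀ y ∈ H₂, ∀ z ∈ H₃, c (x, y, z) = i :=
  Pool.Agent.H57.Cube.main k hk

end Pool.Agent.Results.MP_04d4af_lc.Negative
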